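import Mathlib
import Pool.Agent.Helper76_LAG.Stmt

/-!
# LAG, module BASL: size of balls, existence of the slots
-/

set_option autoImplicit false

namespace Pool.Agent.LAG

open SimpleGraph

namespace Basl

lemma near_succ {V : Type} (G : SimpleGraph V) (r : ℕ) (x y : V) (h : near G (r + 1) x y) :
    ∃ x', near G r x' y ∧ (x = x' ∨ G.Adj x' x) := by
  obtain ⟨p, hp⟩ := h
  cases p with
  | nil => exact ⟨x, ⟨Walk.nil, by simp⟩, Or.inl rfl⟩
  | @cons _ z _ hxz q =>
    refine ⟨z, ⟨q, ?_⟩, Or.inr hxz.symm⟩
    simp only [Walk.length_cons] at hp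
    omega

end Basl

theorem ball : BallStmt := by
  classical
  intro V _ G Δ hΔ r
  induction r with
  | zero =>
    intro y
    rw [pow_zero]
    have : Subsingleton {x : V // near G 0 x y} := by
      refine ⟨fun a b => ?_⟩
      obtain ⟨a, pa, ha⟩ := a
      obtain ⟨b, pb, hb⟩ := b
      have h1 := Walk.eq_of_length_eq_zero (Nat.le_zero.1 ha)
      have h2 := Walk.eq_of_length_eq_zero (Nat.le_zero.1 hb)
      subst h1
      subst h2
      rfl
    exact Finite.card_le_one_iff_subsingleton.2 this
  | succ r ih =>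
    intro y
    have h1 : Nat.card {x : V // near G (r + 1) x y} = ({x : V | near G (r + 1) x y} : Set V).ncard :=
      Nat.card_coe_set_eq _
    have h2 : ∀ y, ({x : V | near G r x y} : Set V).ncard ≤ (Δ + 1) ^ r := by
      intro y
      rw [← Nat.card_coe_set_eq]
      exact ih y
    rw [h1]
    have h3 : ({x : V | near G (r + 1) x y} : Set V) ⊆
        ⋃ x' ∈ ({x : V | near G r x y} : Set V).toFinset, insert x' (G.neighborSet x') := by
      intro x hx
      obtain ⟨x', hx', h⟩ := Basl.near_succ G r x y hx
      simp only [Set.mem_toFinset, Set.mem_iUnion]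
      refine ⟨x', hx', ?_⟩
      rcases h with h | h
      · exact Or.inl h
      · exact Or.inr h
    refine le_trans (Set.ncard_le_ncard h3 (Set.toFinite _)) ?_
    refine le_trans (Finset.set_ncard_biUnion_le _ _) ?_
    refine le_trans (Finset.sum_le_card_nsmul _ _ (Δ + 1) (fun x' _ => ?_)) ?_
    · refine le_trans (Set.ncard_insert_le _ _) ?_
      have := hΔ x'
      omega
    · rw [smul_eq_mul, pow_succ]
      refine Nat.mul_le_mul_right _ ?_
      rw [← Set.ncard_eq_toFinset_card']
      exact h2 y

theorem slot : SlotStmt := by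
  classical
  intro V _ H al hH
  have h1 : ∀ v, ∃ f : V → Fin 4, Set.InjOn f (H.neighborSet v) := by
    intro v
    have h2 : Fintype.card (H.neighborSet v) ≤ Fintype.card (Fin 4) := by
      rw [Fintype.card_fin, ← Nat.card_eq_fintype_card, Nat.card_coe_set_eq]
      exact hH v
    obtain ⟨g⟩ := Function.Embedding.nonempty_of_card_le h2
    refine ⟨fun u => if h : u ∈ H.neighborSet v then g ⟨u, h⟩ else 0, fun a ha b hb hab => ?_⟩
    simp only [dif_pos ha, dif_pos hb] at hab
    have := g.injective hab
    simpa using this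
  choose f hf using h1
  have h3 : ∃ o : V × V → ℕ, Function.Injective o := by
    refine ⟨fun e => (Fintype.equivFin (V × V) e).1, fun a b hab => ?_⟩
    exact (Fintype.equivFin (V × V)).injective (Fin.ext hab)
  obtain ⟨o, ho⟩ := h3
  exact ⟨⟨H, f, al, o, fun v u w hu hw huw => hf v hu hw huw, ho⟩, rfl, rfl⟩

end Pool.Agent.LAG

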