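import Mathlib
import Pool.Agent.Helper76_LAG.Stmt

/-!
# LAG, module LIFT: an event of one factor
-/

set_option autoImplicit false

namespace Pool.Agent.LAG

theorem lift : LiftStmt := by
  classical
  intro Q V α _ _ _ q P
  let R : Type := {j : Q // j ≠ q} → V → α
  let e : (Q × V → α) ≃ (V → α) × R := (Equiv.curry Q V α).trans (Equiv.funSplitAt q (V → α))
  have he : ∀ ω : Q × V → α, (e ω).1 = fun x => ω (q, x) := fun ω => rfl
  have h1 : Nat.card {ω : Q × V → α // P (fun x => ω (q, x))}
      = Nat.card {p : (V → α) × R // P p.1} :=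
    Nat.card_congr (e.subtypeEquiv (fun ω => by rw [he ω]))
  have h2 : Nat.card {p : (V → α) × R // P p.1} = Nat.card {ω : V → α // P ω} * Nat.card R := by
    rw [← Nat.card_prod]
    exact Nat.card_congr Equiv.prodSubtypeFstEquivSubtypeProd
  have h3 : Nat.card (Q × V → α) = Nat.card (V → α) * Nat.card R := by
    rw [← Nat.card_prod]
    exact Nat.card_congr e
  rw [h1, h2, h3]
  ring

end Pool.Agent.LAG

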