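import Mathlib
import Pool.Agent.Helper76_LAG.Stmt
import Pool.Agent.Helper75_LA.Petersen
import Pool.Agent.Helper75_Viz.Regularise

/-!
# LAG, module PET: Petersen's theorem for graphs of maximum degree at most `2 k`
-/

set_option autoImplicit false

namespace Pool.Agent.LAG

open SimpleGraph

theorem pet : PetStmt := by
  classical
  intro V _ G k hG
  obtain ⟨W, hW, H, f, hH, hf⟩ := Pool.Agent.Helper75_Viz.exists_regular (2 * k) (2 * k) V G hG
    (fun v => Nat.le_add_left _ _)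
  obtain ⟨c, hc1, hc2⟩ := Pool.Agent.Helper75_LA.petersen H k hH
  have hadj : ∀ u v, G.Adj u v ↔ H.Adj (f u) (f v) := by
    intro u v
    rw [← hf]
    rfl
  have hmem : ∀ e : Sym2 V, e ∈ G.edgeSet ↔ Sym2.map f e ∈ H.edgeSet := by
    intro e
    induction e using Sym2.ind with
    | _ u v =>
      rw [Sym2.map_mk, mem_edgeSet, mem_edgeSet]
      exact hadj u v
  refine ⟨fun e => c (Sym2.map f e), fun e he => hc1 _ ((hmem e).1 he), fun v i => ?_⟩
  refine le_trans ?_ (hc2 (f v) i)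
  rw [← Set.ncard_image_of_injective _ (Sym2.map.injective f.injective)]
  refine Set.ncard_le_ncard ?_ (Set.toFinite _)
  rintro _ ⟨e, ⟨h1, h2, h3⟩, rfl⟩
  exact ⟨(hmem e).1 h1, Sym2.mem_map.2 ⟨v, h2, rfl⟩, h3⟩

end Pool.Agent.LAG

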